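import Pool.Agent.W581.HQ.Stm

/-!
HQ-REC: the functional equation of the profile.
-/

set_option autoImplicit false

namespace Pool.Agent.W290.HQ

open MeasureTheory Set Filter Topology
open Pool.Agent.W581.HQ

theorem dg_swap {p : ℝ} {W : M2 → ℝ} (h : Hyp p W) (s t : ℝ) : W (dg s t) = W (dg t s) := by
  have h1 := h.inv (Real.pi / 2) (-(Real.pi / 2)) (dg s t)
  rw [← h1]
  congr 1
  unfold R dg
  rw [Real.cos_neg, Real.sin_neg, Real.cos_pi_div_two, Real.sin_pi_div_two]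
  ext i j
  fin_cases i <;> fin_cases j <;> simp [Matrix.mul_apply, Fin.sum_univ_two]

theorem neg_inv {p : ℝ} {W : M2 → ℝ} (h : Hyp p W) (s t : ℝ) : W (dg (-s) (-t)) = W (dg s t) := by
  have h1 := h.inv Real.pi 0 (dg s t)
  rw [← h1]
  congr 1
  unfold R dg
  rw [Real.cos_pi, Real.sin_pi, Real.cos_zero, Real.sin_zero]
  ext i j
  fin_cases i <;> fin_cases j <;> simp [Matrix.mul_apply, Fin.sum_univ_two]

theorem rec1 {p : ℝ} {W : M2 → ℝ} (h : Hyp p W) (t : ℝ) (ht : t ≠ 0) :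
    phi W t = |t| ^ p * phi W t⁻¹ := by
  unfold phi
  rw [dg_swap h 1 t]
  rcases lt_or_gt_of_ne ht with h0 | h0
  · rw [abs_of_neg h0, ← neg_inv h 1 t⁻¹, ← h.hom (-t) _ (by linarith)]
    congr 1
    unfold dg
    ext i j
    fin_cases i <;> fin_cases j <;> simp [ht]
  · rw [abs_of_pos h0, ← h.hom t _ h0]
    congr 1
    unfold dg
    ext i j
    fin_cases i <;> fin_cases j <;> simp [ht]

theorem main : S_REC := by
  intro p W h
  refine ⟨rec1 h, ?_⟩
  intro hc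
  have hd : HasDerivAt (phi W) (deriv (phi W) 1) 1 :=
    ((hc.differentiable (by norm_num)) 1).hasDerivAt
  have hi : HasDerivAt (fun t : ℝ => t⁻¹) (-1) 1 := by
    have := hasDerivAt_inv (x := (1 : ℝ)) one_ne_zero
    simpa using this
  have hd' : HasDerivAt (phi W) (deriv (phi W) 1) ((1 : ℝ)⁻¹) := by rwa [inv_one]
  have hcomp : HasDerivAt (fun t : ℝ => phi W t⁻¹) (deriv (phi W) 1 * (-1)) 1 :=
    HasDerivAt.comp (1 : ℝ) hd' hi
  have hp : HasDerivAt (fun t : ℝ => t ^ p) p 1 := by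
    have := Real.hasDerivAt_rpow_const (x := (1 : ℝ)) (p := p) (Or.inl one_ne_zero)
    simpa using this
  have hm := hp.mul hcomp
  have heq : phi W =ᶠ[𝓝 (1 : ℝ)] fun t : ℝ => t ^ p * phi W t⁻¹ := by
    filter_upwards [lt_mem_nhds (zero_lt_one (α := ℝ))] with t ht
    rw [rec1 h t ht.ne', abs_of_pos ht]
  have hm' : HasDerivAt (phi W) (p * phi W (1 : ℝ)⁻¹ + (1 : ℝ) ^ p * (deriv (phi W) 1 * (-1))) 1 :=
    HasDerivAt.congr_of_eventuallyEq hm heq
  have hu := hd.unique hm'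
  rw [inv_one, Real.one_rpow] at hu
  linarith

end Pool.Agent.W290.HQ
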